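import Pool.Agent.Helper56.RC.StF

/-!
Module G4 of RC (track A): the regime `mB ≤ 1/10`, `S ≥ 1/5 - rB/2`.
-/

set_option autoImplicit false

open MeasureTheory Set Filter Metric

namespace Pool.Agent.Helper45.RC

open Helper49.LT Helper49.RC Helper87.RC Helper44.RC Helper56.RC

theorem norm_lin (A B : ℝ) (u c : ℂ) : ‖(A : ℂ) * u + (B : ℂ) * c‖ ^ 2 =
    A ^ 2 * ‖u‖ ^ 2 + B ^ 2 * ‖c‖ ^ 2 + 2 * A * B * (u * (starRingEnd ℂ) c).re := by
  rw [Complex.sq_norm, Complex.sq_norm, Complex.sq_norm]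
  simp [Complex.normSq_apply]
  ring

theorem quad {α γ δ α0 γ0 D : ℝ} (u c : ℂ) (hα : α0 ≤ α) (hγ : γ0 ≤ γ) (hδ : |δ| ≤ D)
    (h0 : 0 < α0) (h1 : D ^ 2 ≤ α0 * γ0) :
    0 ≤ α * ‖u‖ ^ 2 + γ * ‖c‖ ^ 2 + 2 * δ * (u * (starRingEnd ℂ) c).re := by
  have hD : 0 ≤ D := (abs_nonneg δ).trans hδ
  have h2 : |(u * (starRingEnd ℂ) c).re| ≤ ‖u‖ * ‖c‖ := by
    have := Complex.abs_re_le_norm (u * (starRingEnd ℂ) c)
    rwa [norm_mul, Complex.norm_conj] at this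
  have h3 : |δ * (u * (starRingEnd ℂ) c).re| ≤ D * (‖u‖ * ‖c‖) := by
    rw [abs_mul]
    exact mul_le_mul hδ h2 (abs_nonneg _) hD
  have h4 := (abs_le.1 h3).1
  have hU := norm_nonneg u
  have hW := norm_nonneg c
  have h5 : 0 ≤ α0 * ‖u‖ ^ 2 + γ0 * ‖c‖ ^ 2 - 2 * D * (‖u‖ * ‖c‖) := by
    have h6 : 0 ≤ α0 * (α0 * ‖u‖ ^ 2 + γ0 * ‖c‖ ^ 2 - 2 * D * (‖u‖ * ‖c‖)) := by
      have h7 : α0 * (α0 * ‖u‖ ^ 2 + γ0 * ‖c‖ ^ 2 - 2 * D * (‖u‖ * ‖c‖)) =
          (α0 * ‖u‖ - D * ‖c‖) ^ 2 + (α0 * γ0 - D ^ 2) * ‖c‖ ^ 2 := by ring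
      rw [h7]
      have h8 : 0 ≤ (α0 * γ0 - D ^ 2) * ‖c‖ ^ 2 := mul_nonneg (by linarith) (sq_nonneg _)
      positivity
    exact nonneg_of_mul_nonneg_right h6 h0
  have h9 : α0 * ‖u‖ ^ 2 ≤ α * ‖u‖ ^ 2 := mul_le_mul_of_nonneg_right hα (sq_nonneg _)
  have h10 : γ0 * ‖c‖ ^ 2 ≤ γ * ‖c‖ ^ 2 := mul_le_mul_of_nonneg_right hγ (sq_nonneg _)
  nlinarith

theorem sq3 : Real.sqrt 3 ^ 2 = 3 := Real.sq_sqrt (by norm_num)

theorem s_lo : (17320508 : ℝ) / 10000000 ≤ Real.sqrt 3 := by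
  apply Real.le_sqrt_of_sq_le
  norm_num

theorem s_hi : Real.sqrt 3 ≤ 17320509 / 10000000 := by
  rw [Real.sqrt_le_left (by norm_num)]
  norm_num

/-- the block of a frequency `k ≥ 1` as a quadratic form -/
theorem blk_eq (k : ℕ) (hk : k ≠ 0) (u w : ℂ) (g P Q : ℝ)
    (hg : gg 1 k = g) (hP : g + 11 / 20 * chu k = P) (hQ : g + 11 / 20 * chw k = Q) :
    QB 1 (11 / 20) 0 0 k u w + 828 / 100 * (‖u‖ ^ 2 + ‖w‖ ^ 2)
      - (9 / 10 + Real.sqrt 3) / 2 * (1 / 2 * ‖u + (starRingEnd ℂ) w‖ ^ 2) =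
    (1 / (2 * k + 3) - (2 * k + 1) / (2 * k + 3) * (P ^ 2 / (22 / 5)) + 828 / 100
      - (9 / 10 + Real.sqrt 3) / 4) * ‖u‖ ^ 2 +
    (828 / 100 - (9 / 10 + Real.sqrt 3) / 4 - 1 / (2 * k + 1)
      - (2 * k + 3) / (2 * k + 1) * (Q ^ 2 / (22 / 5))) * ‖(starRingEnd ℂ) w‖ ^ 2 +
    2 * (P * Q / (22 / 5) - (9 / 10 + Real.sqrt 3) / 4) *
      (u * (starRingEnd ℂ) ((starRingEnd ℂ) w)).re := by
  have ha : (2 * (k : ℝ) + 3) ≠ 0 := by positivity
  have hb : (2 * (k : ℝ) + 1) ≠ 0 := by positivity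
  have h1 := norm_lin 1 1 u ((starRingEnd ℂ) w)
  have h2 := norm_lin (P / (2 * k + 3)) (-(Q / (2 * k + 1))) u ((starRingEnd ℂ) w)
  have h3 : ((1 : ℝ) : ℂ) * u + ((1 : ℝ) : ℂ) * (starRingEnd ℂ) w = u + (starRingEnd ℂ) w := by
    push_cast; ring
  rw [h3] at h1
  have h4 : ((P / (2 * k + 3) : ℝ) : ℂ) * u + ((-(Q / (2 * k + 1)) : ℝ) : ℂ) * (starRingEnd ℂ) w =
      ((P / (2 * k + 3) : ℝ) : ℂ) * u - ((Q / (2 * k + 1) : ℝ) : ℂ) * (starRingEnd ℂ) w := by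
    push_cast; ring
  rw [h4] at h2
  unfold QB
  rw [if_neg hk, hg, hP, hQ, h1, h2, ← Complex.norm_conj w]
  set X := ‖u‖ ^ 2
  set Y := ‖(starRingEnd ℂ) w‖ ^ 2
  set Z := (u * (starRingEnd ℂ) ((starRingEnd ℂ) w)).re
  field_simp
  ring

theorem gg_even {k : ℕ} (hk : Even k) : gg 1 k = 2 + Real.sqrt 3 := by
  have h : (-1 : ℝ) ^ (k + 1) = -1 := Odd.neg_one_pow (Even.add_one hk)
  unfold gg
  rw [h]
  ring

theorem gg_odd {k : ℕ} (hk : Odd k) : gg 1 k = 2 - Real.sqrt 3 := by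
  have h : (-1 : ℝ) ^ (k + 1) = 1 := Even.neg_one_pow (Odd.add_one hk)
  unfold gg
  rw [h]
  ring

/-- blocks with small coefficients -/
theorem blk_small (k : ℕ) (u w : ℂ) (b0 P Q p q D : ℝ) (hb0 : 0 < b0) (hb : b0 ≤ 2 * (k : ℝ) + 1)
    (hp : P ^ 2 ≤ p) (hq : Q ^ 2 ≤ q) (hD1 : P * Q / (22 / 5) - (9 / 10 + Real.sqrt 3) / 4 ≤ D)
    (hD2 : -D ≤ P * Q / (22 / 5) - (9 / 10 + Real.sqrt 3) / 4)
    (h0 : 0 < 762 / 100 - p / (22 / 5))
    (h1 : D ^ 2 ≤ (762 / 100 - p / (22 / 5)) * (762 / 100 - 1 / b0 - (1 + 2 / b0) * (q / (22 / 5)))) :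
    0 ≤ (1 / (2 * k + 3) - (2 * k + 1) / (2 * k + 3) * (P ^ 2 / (22 / 5)) + 828 / 100
      - (9 / 10 + Real.sqrt 3) / 4) * ‖u‖ ^ 2 +
    (828 / 100 - (9 / 10 + Real.sqrt 3) / 4 - 1 / (2 * k + 1)
      - (2 * k + 3) / (2 * k + 1) * (Q ^ 2 / (22 / 5))) * ‖(starRingEnd ℂ) w‖ ^ 2 +
    2 * (P * Q / (22 / 5) - (9 / 10 + Real.sqrt 3) / 4) *
      (u * (starRingEnd ℂ) ((starRingEnd ℂ) w)).re := by
  have hs := s_hi
  have hk : (0 : ℝ) ≤ k := Nat.cast_nonneg k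
  have ha : (0 : ℝ) < 2 * (k : ℝ) + 3 := by positivity
  have hbp : (0 : ℝ) < 2 * (k : ℝ) + 1 := by positivity
  refine quad u _ (α0 := 762 / 100 - p / (22 / 5))
    (γ0 := 762 / 100 - 1 / b0 - (1 + 2 / b0) * (q / (22 / 5))) (D := D) ?_ ?_ ?_ h0 h1
  · have h2 : (2 * (k : ℝ) + 1) / (2 * k + 3) * (P ^ 2 / (22 / 5)) ≤ 1 * (p / (22 / 5)) := by
      apply mul_le_mul
      · rw [div_le_one ha]; linarith
      · linarith
      · positivity
      · norm_num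
    have h3 : 0 ≤ 1 / (2 * (k : ℝ) + 3) := by positivity
    linarith
  · have h4 : 1 / (2 * (k : ℝ) + 1) ≤ 1 / b0 := one_div_le_one_div_of_le hb0 hb
    have h5 : (2 * (k : ℝ) + 3) / (2 * k + 1) ≤ 1 + 2 / b0 := by
      have h6 : (2 * (k : ℝ) + 3) / (2 * k + 1) = 1 + 2 * (1 / (2 * (k : ℝ) + 1)) := by
        field_simp
        ring
      rw [h6]
      have h7 : (2 : ℝ) / b0 = 2 * (1 / b0) := by ring
      rw [h7]
      linarith
    have h8 : (2 * (k : ℝ) + 3) / (2 * k + 1) * (Q ^ 2 / (22 / 5)) ≤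
        (1 + 2 / b0) * (q / (22 / 5)) := by
      apply mul_le_mul h5
      · linarith
      · positivity
      · positivity
    linarith
  · exact abs_le.2 ⟨hD2, hD1⟩

/-- the critical blocks -/
theorem blk_crit (k : ℕ) (u w : ℂ) (hk : 6 ≤ k) (P Q : ℝ) (hP : P = 29 / 20 + Real.sqrt 3)
    (hQ : Q = 31 / 10 + Real.sqrt 3) :
    0 ≤ (1 / (2 * k + 3) - (2 * k + 1) / (2 * k + 3) * (P ^ 2 / (22 / 5)) + 828 / 100
      - (9 / 10 + Real.sqrt 3) / 4) * ‖u‖ ^ 2 +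
    (828 / 100 - (9 / 10 + Real.sqrt 3) / 4 - 1 / (2 * k + 1)
      - (2 * k + 3) / (2 * k + 1) * (Q ^ 2 / (22 / 5))) * ‖(starRingEnd ℂ) w‖ ^ 2 +
    2 * (P * Q / (22 / 5) - (9 / 10 + Real.sqrt 3) / 4) *
      (u * (starRingEnd ℂ) ((starRingEnd ℂ) w)).re := by
  have hs := s_hi
  have hl := s_lo
  have h3 := sq3
  have hk6 : (6 : ℝ) ≤ k := by exact_mod_cast hk
  have ha : (0 : ℝ) < 2 * (k : ℝ) + 3 := by positivity
  have hbp : (0 : ℝ) < 2 * (k : ℝ) + 1 := by positivity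
  have hP2 : P ^ 2 / (22 / 5) ≤ 23013 / 10000 := by
    rw [hP, div_le_iff₀ (by norm_num)]; linarith
  have hQ2 : Q ^ 2 / (22 / 5) ≤ 53066 / 10000 := by
    rw [hQ, div_le_iff₀ (by norm_num)]; linarith
  have hPQ : P * Q = 29 / 20 * (31 / 10) + (29 / 20 + 31 / 10) * Real.sqrt 3 + 3 := by
    rw [hP, hQ]; linear_combination h3
  refine quad u _ (α0 := (76219 / 10000 * (2 * k + 3) - 23013 / 10000 * (2 * k + 1) + 1) / (2 * k + 3))
    (γ0 := (76219 / 10000 * (2 * k + 1) - 53066 / 10000 * (2 * k + 3) - 1) / (2 * k + 1))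
    (D := 28366 / 10000) ?_ ?_ ?_ ?_ ?_
  · have h4 : (2 * (k : ℝ) + 1) / (2 * k + 3) * (P ^ 2 / (22 / 5)) ≤
        (2 * (k : ℝ) + 1) / (2 * k + 3) * (23013 / 10000) :=
      mul_le_mul_of_nonneg_left hP2 (by positivity)
    have h5 : (76219 / 10000 * (2 * (k : ℝ) + 3) - 23013 / 10000 * (2 * k + 1) + 1) / (2 * k + 3) =
        76219 / 10000 - (2 * (k : ℝ) + 1) / (2 * k + 3) * (23013 / 10000) + 1 / (2 * k + 3) := by
      field_simp
    rw [h5]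
    linarith
  · have h4 : (2 * (k : ℝ) + 3) / (2 * k + 1) * (Q ^ 2 / (22 / 5)) ≤
        (2 * (k : ℝ) + 3) / (2 * k + 1) * (53066 / 10000) :=
      mul_le_mul_of_nonneg_left hQ2 (by positivity)
    have h5 : (76219 / 10000 * (2 * (k : ℝ) + 1) - 53066 / 10000 * (2 * k + 3) - 1) / (2 * k + 1) =
        76219 / 10000 - (2 * (k : ℝ) + 3) / (2 * k + 1) * (53066 / 10000) - 1 / (2 * k + 1) := by
      field_simp
    rw [h5]
    linarith
  · rw [hPQ, abs_le]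
    constructor
    · linarith
    · linarith
  · apply div_pos _ ha
    linarith
  · rw [div_mul_div_comm, le_div_iff₀ (by positivity)]
    have h6 : 0 ≤ ((k : ℝ) - 6) * k := mul_nonneg (by linarith) (by linarith)
    linarith

/-- blocks for `k ≥ 1` -/
theorem blk_pos (k : ℕ) (hk : k ≠ 0) (u w : ℂ) :
    0 ≤ QB 1 (11 / 20) 0 0 k u w + 828 / 100 * (‖u‖ ^ 2 + ‖w‖ ^ 2)
      - (9 / 10 + Real.sqrt 3) / 2 * (1 / 2 * ‖u + (starRingEnd ℂ) w‖ ^ 2) := by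
  have hs := s_hi
  have hl := s_lo
  have h3 := sq3
  have hmod : k % 3 = 0 ∨ k % 3 = 1 ∨ k % 3 = 2 := by omega
  rcases Nat.even_or_odd k with he | ho
  · have hg := gg_even he
    obtain ⟨j, hj⟩ := he
    rcases hmod with h | h | h
    · have hu : chu k = -1 := by unfold chu; rw [if_neg (by omega)]
      have hw : chw k = 2 := by unfold chw; rw [if_pos h]
      rw [blk_eq k hk u w (2 + Real.sqrt 3) (29 / 20 + Real.sqrt 3) (31 / 10 + Real.sqrt 3) hg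
        (by rw [hu]; ring) (by rw [hw]; ring)]
      exact blk_crit k u w (by omega) _ _ rfl rfl
    · have hu : chu k = 2 := by unfold chu; rw [if_pos h]
      have hw : chw k = -1 := by unfold chw; rw [if_neg (by omega)]
      rw [blk_eq k hk u w (2 + Real.sqrt 3) (31 / 10 + Real.sqrt 3) (29 / 20 + Real.sqrt 3) hg
        (by rw [hu]; ring) (by rw [hw]; ring)]
      have hk4 : (4 : ℝ) ≤ k := by exact_mod_cast (by omega : 4 ≤ k)
      have hPQ : (31 / 10 + Real.sqrt 3) * (29 / 20 + Real.sqrt 3) =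
          29 / 20 * (31 / 10) + (29 / 20 + 31 / 10) * Real.sqrt 3 + 3 := by
        linear_combination h3
      refine blk_small k u w 9 _ _ (2335 / 100) (10126 / 1000) (284 / 100) (by norm_num)
        (by linarith) (by linarith) (by linarith) (by rw [hPQ]; linarith)
        (by rw [hPQ]; linarith) (by norm_num) (by norm_num)
    · have hu : chu k = -1 := by unfold chu; rw [if_neg (by omega)]
      have hw : chw k = -1 := by unfold chw; rw [if_neg (by omega)]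
      rw [blk_eq k hk u w (2 + Real.sqrt 3) (29 / 20 + Real.sqrt 3) (29 / 20 + Real.sqrt 3) hg
        (by rw [hu]; ring) (by rw [hw]; ring)]
      have hk4 : (1 : ℝ) ≤ k := by exact_mod_cast (by omega : 1 ≤ k)
      have hPQ : (29 / 20 + Real.sqrt 3) * (29 / 20 + Real.sqrt 3) =
          29 / 20 * (29 / 20) + (29 / 20 + 29 / 20) * Real.sqrt 3 + 3 := by
        linear_combination h3
      refine blk_small k u w 3 _ _ (10126 / 1000) (10126 / 1000) (17 / 10) (by norm_num)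
        (by linarith) (by linarith) (by linarith) (by rw [hPQ]; linarith)
        (by rw [hPQ]; linarith) (by norm_num) (by norm_num)
  · have hg := gg_odd ho
    have hk4 : (1 : ℝ) ≤ k := by exact_mod_cast (by omega : 1 ≤ k)
    rcases hmod with h | h | h
    · have hu : chu k = -1 := by unfold chu; rw [if_neg (by omega)]
      have hw : chw k = 2 := by unfold chw; rw [if_pos h]
      rw [blk_eq k hk u w (2 - Real.sqrt 3) (29 / 20 - Real.sqrt 3) (31 / 10 - Real.sqrt 3) hg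
        (by rw [hu]; ring) (by rw [hw]; ring)]
      have hPQ : (29 / 20 - Real.sqrt 3) * (31 / 10 - Real.sqrt 3) =
          29 / 20 * (31 / 10) - (29 / 20 + 31 / 10) * Real.sqrt 3 + 3 := by
        linear_combination h3
      refine blk_small k u w 3 _ _ 2 2 1 (by norm_num)
        (by linarith) (by linarith) (by linarith) (by rw [hPQ]; linarith)
        (by rw [hPQ]; linarith) (by norm_num) (by norm_num)
    · have hu : chu k = 2 := by unfold chu; rw [if_pos h]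
      have hw : chw k = -1 := by unfold chw; rw [if_neg (by omega)]
      rw [blk_eq k hk u w (2 - Real.sqrt 3) (31 / 10 - Real.sqrt 3) (29 / 20 - Real.sqrt 3) hg
        (by rw [hu]; ring) (by rw [hw]; ring)]
      have hPQ : (31 / 10 - Real.sqrt 3) * (29 / 20 - Real.sqrt 3) =
          29 / 20 * (31 / 10) - (29 / 20 + 31 / 10) * Real.sqrt 3 + 3 := by
        linear_combination h3
      refine blk_small k u w 3 _ _ 2 2 1 (by norm_num)
        (by linarith) (by linarith) (by linarith) (by rw [hPQ]; linarith)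
        (by rw [hPQ]; linarith) (by norm_num) (by norm_num)
    · have hu : chu k = -1 := by unfold chu; rw [if_neg (by omega)]
      have hw : chw k = -1 := by unfold chw; rw [if_neg (by omega)]
      rw [blk_eq k hk u w (2 - Real.sqrt 3) (29 / 20 - Real.sqrt 3) (29 / 20 - Real.sqrt 3) hg
        (by rw [hu]; ring) (by rw [hw]; ring)]
      have hPQ : (29 / 20 - Real.sqrt 3) * (29 / 20 - Real.sqrt 3) =
          29 / 20 * (29 / 20) - (29 / 20 + 29 / 20) * Real.sqrt 3 + 3 := by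
        linear_combination h3
      refine blk_small k u w 3 _ _ 2 2 1 (by norm_num)
        (by linarith) (by linarith) (by linarith) (by rw [hPQ]; linarith)
        (by rw [hPQ]; linarith) (by norm_num) (by norm_num)

/-- the block `k = 0` -/
theorem blk_zero (u w : ℂ) :
    717 / 100 * ‖u‖ ^ 2 + 527 / 100 * ‖w‖ ^ 2 ≤
      QB 1 (11 / 20) 0 0 0 u w + 828 / 100 * (‖u‖ ^ 2 + ‖w‖ ^ 2)
      - (9 / 10 + Real.sqrt 3) / 2 * (1 / 2 * ‖u + (starRingEnd ℂ) w‖ ^ 2) := by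
  have hs := s_hi
  have hl := s_lo
  have h3 := sq3
  have hg : gg 1 0 = 2 + Real.sqrt 3 := gg_even (by decide)
  have h1 := norm_lin 1 1 u ((starRingEnd ℂ) w)
  have h2 := norm_lin ((Real.sqrt 3 - 11 / 20) / 3) (-(Real.sqrt 3 + 11 / 10)) u ((starRingEnd ℂ) w)
  have h4 := norm_lin (-(1 / 2)) (3 / 2) u ((starRingEnd ℂ) w)
  have h5 : ((1 : ℝ) : ℂ) * u + ((1 : ℝ) : ℂ) * (starRingEnd ℂ) w = u + (starRingEnd ℂ) w := by
    push_cast; ring
  have h6 : ((-(1 / 2) : ℝ) : ℂ) * u + ((3 / 2 : ℝ) : ℂ) * (starRingEnd ℂ) w =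
      (3 / 2 : ℂ) * (starRingEnd ℂ) w - (1 / 2 : ℂ) * u := by
    push_cast; ring
  have h7 : (((2 + Real.sqrt 3 - 11 / 20 - 2) / 3 : ℝ) : ℂ) * u +
      ((2 - (2 + Real.sqrt 3) - 2 * (11 / 20) : ℝ) : ℂ) * (starRingEnd ℂ) w =
      (((Real.sqrt 3 - 11 / 20) / 3 : ℝ) : ℂ) * u +
      ((-(Real.sqrt 3 + 11 / 10) : ℝ) : ℂ) * (starRingEnd ℂ) w := by
    push_cast; ring
  rw [h5] at h1
  rw [h6] at h4
  have key : QB 1 (11 / 20) 0 0 0 u w + 828 / 100 * (‖u‖ ^ 2 + ‖w‖ ^ 2)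
      - (9 / 10 + Real.sqrt 3) / 2 * (1 / 2 * ‖u + (starRingEnd ℂ) w‖ ^ 2) -
      (717 / 100 * ‖u‖ ^ 2 + 527 / 100 * ‖w‖ ^ 2) =
    (1 / 3 + 2 / 3 * (1 / 4) - 15 / 62 * ((Real.sqrt 3 - 11 / 20) ^ 2 / 9) + 111 / 100
      - (9 / 10 + Real.sqrt 3) / 4) * ‖u‖ ^ 2 +
    (-1 + 2 / 3 * (9 / 4) - 15 / 62 * (Real.sqrt 3 + 11 / 10) ^ 2 + 301 / 100
      - (9 / 10 + Real.sqrt 3) / 4) * ‖(starRingEnd ℂ) w‖ ^ 2 +
    2 * (2 / 3 * (-(3 / 4)) + 15 / 62 * ((Real.sqrt 3 - 11 / 20) / 3 * (Real.sqrt 3 + 11 / 10))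
      - (9 / 10 + Real.sqrt 3) / 4) * (u * (starRingEnd ℂ) ((starRingEnd ℂ) w)).re := by
    unfold QB
    rw [if_pos rfl, hg, h7, h1, h2, h4, ← Complex.norm_conj w]
    set X := ‖u‖ ^ 2
    set Y := ‖(starRingEnd ℂ) w‖ ^ 2
    set Z := (u * (starRingEnd ℂ) ((starRingEnd ℂ) w)).re
    push_cast
    ring
  have h8 : 0 ≤ QB 1 (11 / 20) 0 0 0 u w + 828 / 100 * (‖u‖ ^ 2 + ‖w‖ ^ 2)
      - (9 / 10 + Real.sqrt 3) / 2 * (1 / 2 * ‖u + (starRingEnd ℂ) w‖ ^ 2) -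
      (717 / 100 * ‖u‖ ^ 2 + 527 / 100 * ‖w‖ ^ 2) := by
    rw [key]
    refine quad u _ (α0 := 91 / 100) (γ0 := 91 / 100) (D := 89 / 100) ?_ ?_ ?_ (by norm_num)
      (by norm_num)
    · linarith
    · linarith
    · rw [abs_le]
      constructor
      · linarith
      · linarith
  linarith

theorem hG4 (h₁ : StLbt) (h₃ : StPar) : StG4 := by
  intro β P hadm hlt hm hSlo hShi
  obtain ⟨hn, hmB, -, hrB, -⟩ := h₃ β P hadm hlt
  obtain ⟨hq, hL⟩ := h₁ β P hadm hlt 1 (11 / 20) 0 0 1 (by norm_num) le_rfl (by norm_num) le_rfl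
    (by rw [abs_zero]; linarith [Real.pi_pos]) (by norm_num)
  have hs := s_hi
  have hl := s_lo
  have h3 := sq3
  set s := Real.sqrt 3 with hsdef
  have hFS : FSc 1 (11 / 20) = 9 / 10 + s := by unfold FSc; ring
  have hF1 : F1c 1 (11 / 20) = 51 / 20 - s := by unfold F1c; ring
  have hg : gg 1 0 = 2 + s := gg_even (by decide)
  rw [hFS, hF1, hg] at hL
  -- the sums
  have hh : Summable fun k : ℕ => 1 / 2 * ‖uu β k + (starRingEnd ℂ) (ww β k)‖ ^ 2 := by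
    refine Summable.of_nonneg_of_le (fun k => by positivity) (fun k => ?_) hn
    have h4 := norm_add_le (uu β k) ((starRingEnd ℂ) (ww β k))
    rw [Complex.norm_conj] at h4
    have h5 := pow_le_pow_left₀ (norm_nonneg _) h4 2
    linarith [sq_nonneg (‖uu β k‖ - ‖ww β k‖)]
  have hhn : ∑' k : ℕ, 1 / 2 * ‖uu β k + (starRingEnd ℂ) (ww β k)‖ ^ 2 ≤
      ∑' k : ℕ, (‖uu β k‖ ^ 2 + ‖ww β k‖ ^ 2) := by
    refine hh.tsum_le_tsum (fun k => ?_) hn
    have h4 := norm_add_le (uu β k) ((starRingEnd ℂ) (ww β k))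
    rw [Complex.norm_conj] at h4
    have h5 := pow_le_pow_left₀ (norm_nonneg _) h4 2
    linarith [sq_nonneg (‖uu β k‖ - ‖ww β k‖)]
  have hF : Summable fun k : ℕ => QB 1 (11 / 20) 0 0 k (uu β k) (ww β k)
      + 828 / 100 * (‖uu β k‖ ^ 2 + ‖ww β k‖ ^ 2)
      - (9 / 10 + s) / 2 * (1 / 2 * ‖uu β k + (starRingEnd ℂ) (ww β k)‖ ^ 2) :=
    (hq.add (hn.mul_left _)).sub (hh.mul_left _)
  have hFt : ∑' k : ℕ, (QB 1 (11 / 20) 0 0 k (uu β k) (ww β k)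
      + 828 / 100 * (‖uu β k‖ ^ 2 + ‖ww β k‖ ^ 2)
      - (9 / 10 + s) / 2 * (1 / 2 * ‖uu β k + (starRingEnd ℂ) (ww β k)‖ ^ 2)) =
      ∑' k : ℕ, QB 1 (11 / 20) 0 0 k (uu β k) (ww β k)
      + 828 / 100 * ∑' k : ℕ, (‖uu β k‖ ^ 2 + ‖ww β k‖ ^ 2)
      - (9 / 10 + s) / 2 * ∑' k : ℕ, 1 / 2 * ‖uu β k + (starRingEnd ℂ) (ww β k)‖ ^ 2 := by
    rw [(hq.add (hn.mul_left _)).tsum_sub (hh.mul_left _), hq.tsum_add (hn.mul_left _),
      tsum_mul_left, tsum_mul_left]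
  have hF0 := hF.le_tsum 0 (fun j hj => blk_pos j hj (uu β j) (ww β j))
  rw [hFt] at hF0
  have hb0 := blk_zero (uu β 0) (ww β 0)
  rw [← hsdef] at hb0
  have hN0 : 0 ≤ ∑' k : ℕ, (‖uu β k‖ ^ 2 + ‖ww β k‖ ^ 2) := tsum_nonneg fun k => by positivity
  have hH0 : 0 ≤ ∑' k : ℕ, 1 / 2 * ‖uu β k + (starRingEnd ℂ) (ww β k)‖ ^ 2 :=
    tsum_nonneg fun k => by positivity
  set N := ∑' k : ℕ, (‖uu β k‖ ^ 2 + ‖ww β k‖ ^ 2) with hNdef
  set H := ∑' k : ℕ, 1 / 2 * ‖uu β k + (starRingEnd ℂ) (ww β k)‖ ^ 2 with hHdef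
  set TQ := ∑' k : ℕ, QB 1 (11 / 20) 0 0 k (uu β k) (ww β k) with hTQ
  -- the scalars
  have hx : |b1 β| ≤ ‖fc β 0‖ := Complex.abs_re_le_norm _
  set x := b1 β with hxdef
  set X := ‖fc β 0‖ with hXdef
  have hX0 : 0 ≤ X := norm_nonneg _
  set m := mB β with hmdef
  have hx2 : x ^ 2 ≤ X ^ 2 := by
    rw [← sq_abs x]
    exact pow_le_pow_left₀ (abs_nonneg _) hx 2
  have hXm : X ^ 2 ≤ m := by linarith
  have hX1 : X ≤ 3163 / 10000 := by
    by_contra hcon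
    push Not at hcon
    have h4 := pow_le_pow_left₀ (by norm_num) hcon.le 2
    norm_num at h4
    linarith
  have hxb := abs_le.1 (hx.trans hX1)
  -- the cubic term
  have hcub : ‖((2 + s + 4 * (11 / 20) : ℝ) : ℂ) * (starRingEnd ℂ) (ww β 0)
        - (((2 + s + 11 / 20) / 3 : ℝ) : ℂ) * uu β 0‖ ≤
      59321 / 10000 * ‖ww β 0‖ + 14274 / 10000 * ‖uu β 0‖ := by
    refine (norm_sub_le _ _).trans ?_
    rw [norm_mul, norm_mul, Complex.norm_real, Complex.norm_real, Complex.norm_conj,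
      Real.norm_of_nonneg (by linarith), Real.norm_of_nonneg (by linarith)]
    have h4 := norm_nonneg (ww β 0)
    have h5 := norm_nonneg (uu β 0)
    have h6 : (2 + s + 4 * (11 / 20)) * ‖ww β 0‖ ≤ 59321 / 10000 * ‖ww β 0‖ :=
      mul_le_mul_of_nonneg_right (by linarith) h4
    have h7 : (2 + s + 11 / 20) / 3 * ‖uu β 0‖ ≤ 14274 / 10000 * ‖uu β 0‖ :=
      mul_le_mul_of_nonneg_right (by linarith) h5
    linarith
  set CU := ‖((2 + s + 4 * (11 / 20) : ℝ) : ℂ) * (starRingEnd ℂ) (ww β 0)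
        - (((2 + s + 11 / 20) / 3 : ℝ) : ℂ) * uu β 0‖ with hCU
  set U := ‖uu β 0‖ with hU
  set W := ‖ww β 0‖ with hW
  have hm0 : 0 ≤ m := le_trans (sq_nonneg X) hXm
  have hU0 : 0 ≤ U := norm_nonneg _
  have hW0 : 0 ≤ W := norm_nonneg _
  have hcub2 : 3 / (2 * (1 + (11 / 20 : ℝ))) * m * CU ≤
      m * (5741 / 1000 * W + 1382 / 1000 * U) := by
    have h4 : 3 / (2 * (1 + (11 / 20 : ℝ))) * m * CU ≤
        3 / (2 * (1 + (11 / 20 : ℝ))) * m * (59321 / 10000 * W + 14274 / 10000 * U) :=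
      mul_le_mul_of_nonneg_left hcub (by positivity)
    refine h4.trans ?_
    have h5 : 0 ≤ m * W := mul_nonneg hm0 hW0
    have h6 : 0 ≤ m * U := mul_nonneg hm0 hU0
    rw [show 3 / (2 * (1 + (11 / 20 : ℝ))) = 30 / 31 by norm_num]
    linarith
  -- the parameter S
  set S := SS β P with hS
  set r := 1 / 2 * rB β with hr
  have hr0 : 0 ≤ r := by rw [hr, hrB]; positivity
  have hrm : r ≤ m / 2 := by rw [hr, hrB]; linarith
  have hrx : 2 * r = x ^ 2 + H := by rw [hr, hrB]; ring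
  have hT : (9 / 10 + s) * (1 / 5 - r) - 11 / 20 * (1 / 5 - r) ^ 2 + (51 / 20 - s) * (1 / 5 - r) * x ≤
      (9 / 10 + s) * S - 11 / 20 * S ^ 2 + (51 / 20 - s) * S * x := by
    have h4 : (9 / 10 + s) * S - 11 / 20 * S ^ 2 + (51 / 20 - s) * S * x -
        ((9 / 10 + s) * (1 / 5 - r) - 11 / 20 * (1 / 5 - r) ^ 2 + (51 / 20 - s) * (1 / 5 - r) * x) =
        (S - (1 / 5 - r)) * ((9 / 10 + s) - 11 / 20 * (S + (1 / 5 - r)) + (51 / 20 - s) * x) := by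
      ring
    have h5 : 0 ≤ (9 / 10 + s) - 11 / 20 * (S + (1 / 5 - r)) + (51 / 20 - s) * x := by
      have h8 : (51 / 20 - s) * (-(3163 / 10000)) ≤ (51 / 20 - s) * x :=
        mul_le_mul_of_nonneg_left hxb.1 (by linarith)
      linarith
    have h6 : 0 ≤ S - (1 / 5 - r) := by linarith
    have h7 := mul_nonneg h6 h5
    linarith
  -- quadratic parts
  have hq1 : -(1564 / 1000) * m ^ 2 ≤ 527 / 100 * W ^ 2 - 5741 / 1000 * m * W := by
    linarith [sq_nonneg (527 / 100 * W - 5741 / 2000 * m), sq_nonneg m]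
  have hq2 : -(67 / 1000) * m ^ 2 ≤ 717 / 100 * U ^ 2 - 1382 / 1000 * m * U := by
    linarith [sq_nonneg (717 / 100 * U - 1382 / 2000 * m), sq_nonneg m]
  have hr1 : (1 / 5 - r) ^ 2 ≤ 1 / 25 := by
    have h4 : 0 ≤ r * (2 / 5 - r) := mul_nonneg hr0 (by linarith)
    linarith
  have hrx2 : r * x ≤ 3163 / 20000 * m := by
    have h4 : r * x ≤ r * (3163 / 10000) := mul_le_mul_of_nonneg_left hxb.2 hr0
    linarith
  have hrx3 : (51 / 20 - s) * (r * x) ≤ 13 / 100 * m := by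
    have h4 : (51 / 20 - s) * (r * x) ≤ (51 / 20 - s) * (3163 / 20000 * m) :=
      mul_le_mul_of_nonneg_left hrx2 (by linarith)
    have h5 : (51 / 20 - s) * (3163 / 20000 * m) ≤ 818 / 1000 * (3163 / 20000 * m) :=
      mul_le_mul_of_nonneg_right (by linarith) (by linarith)
    linarith
  have hmm : 163 / 100 * m ^ 2 + 1 / 1000 * m ^ 2 ≤ 1631 / 10000 * m := by
    have h4 : m * m ≤ 1 / 10 * m := mul_le_mul_of_nonneg_right hm hm0
    linarith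
  have hfin : 0 ≤ (5 + 2 * s - 891 / 100) + (9 / 10 + s) / 5 - 11 / 500
      + ((51 / 20 - s) / 5 + 4 - 3 * s) * x + (928 / 100 - (2 - s) - (9 / 10 + s) / 2) * x ^ 2 := by
    have h4 : (769 / 100 : ℝ) * x ^ 2 ≤ (928 / 100 - (2 - s) - (9 / 10 + s) / 2) * x ^ 2 :=
      mul_le_mul_of_nonneg_right (by linarith) (sq_nonneg _)
    have h5 : |((51 / 20 - s) / 5 + 4 - 3 * s) * x| ≤ 1033 / 1000 * |x| := by
      rw [abs_mul]
      apply mul_le_mul_of_nonneg_right _ (abs_nonneg _)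
      rw [abs_le]; constructor <;> linarith
    have h6 := (abs_le.1 h5).1
    have h7 : x ^ 2 = |x| ^ 2 := (sq_abs x).symm
    linarith [sq_nonneg (|x| - 67 / 1000), hx.trans hX1, abs_nonneg x]
  -- conclusion
  have hXX : (928 / 100 : ℝ) * x ^ 2 ≤ 928 / 100 * X ^ 2 := by linarith
  have hH2 : (9 / 10 + s) / 2 * H = (9 / 10 + s) * r - (9 / 10 + s) / 2 * x ^ 2 := by
    linear_combination (-(9 / 10 + s) / 2) * hrx
  rw [show (1 : ℝ) - 1 = 0 by norm_num] at hL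
  simp only [zero_mul, add_zero, mul_zero] at hL
  linarith

end Pool.Agent.Helper45.RC
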