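import Pool.Agent.Helper56.RC.St
import Pool.Agent.Helper87.RC.M_KERb

/-! # Project RC, module S2M: second moment of the edge 0 -/

open MeasureTheory Set Filter Metric

namespace Pool.Agent.Helper45.RC

open Helper49.LT Helper49.RC Helper87.RC Helper44.RC Helper56.RC

private theorem nn2_rot (t : ℝ) (z : ℂ) : nn 2 (ee t * z) = ee (-2 * t) * nn 2 z := by
  have h : ee (-2 * t) = (starRingEnd ℂ) (ee t) ^ 2 := by
    rw [← ee_neg, sq, ← ee_add]
    congr 1
    ring
  unfold nn
  rw [norm_mul, norm_ee, one_mul, map_mul, h]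
  ring

private theorem pt (b : ℂ) :
    ‖nn 2 (1 + b) - (1 + 3 / 2 * (starRingEnd ℂ) b - 1 / 2 * b)‖ ≤ 3 / 2 * ‖b‖ ^ 2 := by
  by_cases hz : 1 + b = 0
  · have hb : b = -1 := by linear_combination hz
    subst hb
    rw [hz, nn_of_zero]
    have : (0 : ℂ) - (1 + 3 / 2 * (starRingEnd ℂ) (-1) - 1 / 2 * (-1)) = 0 := by
      rw [map_neg, map_one]
      ring
    rw [this, norm_zero]
    positivity
  · have hr : 0 < ‖1 + b‖ := norm_pos_iff.2 hz
    set r := ‖1 + b‖ with hrdef
    have hrc : (r : ℂ) ≠ 0 := by exact_mod_cast hr.ne'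
    have hsq : (1 + b.re) * (1 + b.re) + b.im * b.im = r * r := by
      have h1 := Complex.sq_norm (1 + b)
      rw [Complex.normSq_apply] at h1
      simp only [Complex.add_re, Complex.add_im, Complex.one_re, Complex.one_im, zero_add] at h1
      rw [← hrdef] at h1
      linarith
    have hbsq : ‖b‖ ^ 2 = b.re * b.re + b.im * b.im := by
      rw [Complex.sq_norm, Complex.normSq_apply]
    have hx : 1 + b.re ≤ r := by nlinarith [mul_self_nonneg b.im]
    have hrx : r - (1 + b.re) ≤ ‖b‖ ^ 2 / 2 := by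
      rw [hbsq]
      nlinarith [mul_self_nonneg (r - 1)]
    set x := 1 + b.re with hxdef
    set y := b.im with hydef
    have key : nn 2 (1 + b) - (1 + 3 / 2 * (starRingEnd ℂ) b - 1 / 2 * b) =
        (⟨(2 * x + r) * (x - r), 2 * y * (r - x)⟩ : ℂ) / (r : ℂ) := by
      rw [eq_div_iff hrc]
      have h1 : nn 2 (1 + b) * (r : ℂ) = (starRingEnd ℂ) (1 + b) ^ 2 := by
        unfold nn
        rw [← hrdef]
        field_simp
      rw [sub_mul, h1]
      apply Complex.ext
      · simp only [sq, Complex.sub_re, Complex.mul_re, Complex.mul_im, Complex.conj_re,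
          Complex.conj_im, Complex.add_re, Complex.add_im, Complex.one_re, Complex.one_im,
          Complex.ofReal_re, Complex.ofReal_im, Complex.sub_im]
        norm_num
        rw [hxdef] at hsq ⊢
        linear_combination (-1 : ℝ) * hsq
      · simp only [sq, Complex.sub_re, Complex.mul_re, Complex.mul_im, Complex.conj_re,
          Complex.conj_im, Complex.add_re, Complex.add_im, Complex.one_re, Complex.one_im,
          Complex.ofReal_re, Complex.ofReal_im, Complex.sub_im]
        norm_num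
        rw [hxdef]
        ring
    rw [key, norm_div, Complex.norm_real, Real.norm_eq_abs, abs_of_pos hr, div_le_iff₀ hr]
    have h3 : ‖(⟨(2 * x + r) * (x - r), 2 * y * (r - x)⟩ : ℂ)‖ ≤ 3 * r * (r - x) := by
      have hp : 0 ≤ 3 * r * (r - x) := by
        have : 0 ≤ r - x := by linarith
        positivity
      rw [← sq_le_sq₀ (norm_nonneg _) hp, Complex.sq_norm, Complex.normSq_apply]
      have e1 : (2 * x + r) * (x - r) * ((2 * x + r) * (x - r)) +
          2 * y * (r - x) * (2 * y * (r - x)) = (r - x) ^ 2 * (5 * (r * r) + 4 * (x * r)) := by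
        linear_combination 4 * (r - x) ^ 2 * hsq
      have e2 : (3 * r * (r - x)) ^ 2 = (r - x) ^ 2 * (9 * (r * r)) := by ring
      show (2 * x + r) * (x - r) * ((2 * x + r) * (x - r)) +
          2 * y * (r - x) * (2 * y * (r - x)) ≤ (3 * r * (r - x)) ^ 2
      rw [e1, e2]
      apply mul_le_mul_of_nonneg_left _ (sq_nonneg _)
      nlinarith
    nlinarith

private theorem int_conj (f : ℝ → ℂ) :
    (starRingEnd ℂ) (∫ t in (0 : ℝ)..(2 * Real.pi), f t) =
      ∫ t in (0 : ℝ)..(2 * Real.pi), (starRingEnd ℂ) (f t) := by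
  have h : (0 : ℝ) ≤ 2 * Real.pi := by positivity
  rw [intervalIntegral.integral_of_le h, intervalIntegral.integral_of_le h, integral_conj]

private theorem int_ee2 : ∫ t in (0 : ℝ)..(2 * Real.pi), ee (-2 * t) = 0 := by
  have h : ∀ x ∈ Set.uIcc (0 : ℝ) (2 * Real.pi),
      HasDerivAt (fun s : ℝ => ee (-2 * s) / (((-2 : ℝ) : ℂ) * Complex.I)) (ee (-2 * x)) x := by
    intro x _
    have h1 := (hasDerivAt_ee (-2) x).div_const (((-2 : ℝ) : ℂ) * Complex.I)
    have h2 : (((-2 : ℝ) : ℂ) * Complex.I * ee (-2 * x)) / (((-2 : ℝ) : ℂ) * Complex.I) =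
        ee (-2 * x) := by
      rw [mul_div_cancel_left₀]
      simp
    rw [h2] at h1
    exact h1
  have hc : Continuous (fun t : ℝ => ee (-2 * t)) := continuous_ee.comp (by fun_prop)
  rw [intervalIntegral.integral_eq_sub_of_hasDerivAt h (hc.intervalIntegrable _ _)]
  have e1 : ee (-2 * (2 * Real.pi)) = ee (-2 * 0) := by
    have := ee_int (-2) 0
    rw [zero_add] at this
    push_cast at this
    exact this
  rw [e1, sub_self]

theorem hS2M : StS2m := by
  intro β P hA hβ
  have hb1 : ∀ t, ‖β t‖ ≤ 1 := fun t => (hβ t).le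
  have hce : Continuous (fun t : ℝ => ee (-2 * t)) := continuous_ee.comp (by fun_prop)
  have hme : Measurable (fun t : ℝ => ee (-2 * t)) := hce.measurable
  have mc : Measurable (fun t => (starRingEnd ℂ) (β t)) :=
    Complex.continuous_conj.measurable.comp hA.mb
  constructor
  · -- the three integrals
    have i0 : IntervalIntegrable (fun t => nn 2 (ee t * f0 (β t))) volume 0 (2 * Real.pi) :=
      intg_of_bddC ((measurable_nn 2).comp (m0 hA)) (C := 6)
        (fun t => (norm_nn_le 2 _).trans (f0_le hA t)) _ _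
    have i1 : IntervalIntegrable (fun t => (starRingEnd ℂ) (β t) * ee (-2 * t)) volume 0
        (2 * Real.pi) :=
      intg_of_bddC (mc.mul hme) (C := 1)
        (fun t => by
          show ‖(starRingEnd ℂ) (β t) * ee (-2 * t)‖ ≤ 1
          rw [norm_mul, norm_ee, mul_one, Complex.norm_conj]; exact hb1 t) _ _
    have i2 : IntervalIntegrable (fun t => β t * ee (-2 * t)) volume 0 (2 * Real.pi) :=
      intg_of_bddC (hA.mb.mul hme) (C := 1)
        (fun t => by
          show ‖β t * ee (-2 * t)‖ ≤ 1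
          rw [norm_mul, norm_ee, mul_one]; exact hb1 t) _ _
    have i3 : IntervalIntegrable (fun t : ℝ => ee (-2 * t)) volume 0 (2 * Real.pi) :=
      hce.intervalIntegrable _ _
    have hw : (starRingEnd ℂ) (ww β 0) = (1 / (2 * Real.pi) : ℂ) *
        ∫ t in (0 : ℝ)..(2 * Real.pi), (starRingEnd ℂ) (β t) * ee (-2 * t) := by
      unfold ww fc
      rw [map_mul, int_conj]
      congr 1
      · rw [map_div₀, map_one, map_mul, Complex.conj_ofReal, map_ofNat]
      · apply intervalIntegral.integral_congr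
        intro t _
        show (starRingEnd ℂ) (β t * ee (-(((-(2 * ((0 : ℕ) : ℤ) + 2) : ℤ) : ℝ) * t))) =
          (starRingEnd ℂ) (β t) * ee (-2 * t)
        rw [map_mul, ← ee_neg]
        congr 2
        push_cast
        ring
    have hu : uu β 0 = (1 / (2 * Real.pi) : ℂ) *
        ∫ t in (0 : ℝ)..(2 * Real.pi), β t * ee (-2 * t) := by
      unfold uu fc
      congr 1
      apply intervalIntegral.integral_congr
      intro t _
      show β t * ee (-(((2 * ((0 : ℕ) : ℤ) + 2 : ℤ) : ℝ) * t)) = β t * ee (-2 * t)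
      congr 2
      push_cast
      ring
    have e : s0 β 2 - ((3 / 2 : ℂ) * (starRingEnd ℂ) (ww β 0) - (1 / 2 : ℂ) * uu β 0) =
        (1 / (2 * Real.pi) : ℂ) * ∫ t in (0 : ℝ)..(2 * Real.pi),
          (nn 2 (ee t * f0 (β t)) - ee (-2 * t)
            - ((3 / 2 : ℂ) * ((starRingEnd ℂ) (β t) * ee (-2 * t))
              - (1 / 2 : ℂ) * (β t * ee (-2 * t)))) := by
      rw [intervalIntegral.integral_sub (i0.sub i3) ((i1.const_mul _).sub (i2.const_mul _)),
        intervalIntegral.integral_sub i0 i3,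
        intervalIntegral.integral_sub (i1.const_mul _) (i2.const_mul _),
        intervalIntegral.integral_const_mul, intervalIntegral.integral_const_mul, int_ee2, hw, hu]
      unfold s0
      ring
    rw [e, norm_mul]
    have hn : ‖(1 / (2 * Real.pi) : ℂ)‖ = 1 / (2 * Real.pi) := by
      rw [norm_div, norm_one, norm_mul, Complex.norm_real, Real.norm_eq_abs,
        abs_of_pos Real.pi_pos]
      norm_num
    rw [hn]
    have hpi : (0 : ℝ) ≤ 2 * Real.pi := by positivity
    have i4 : IntervalIntegrable (fun t => 3 / 2 * ‖β t‖ ^ 2) volume 0 (2 * Real.pi) := by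
      refine intg_of_bdd (((measurable_norm.comp hA.mb).pow_const 2).const_mul _) (C := 3 / 2)
        (fun t => ?_) _ _
      have h1 := hb1 t
      have h2 := norm_nonneg (β t)
      show |3 / 2 * ‖β t‖ ^ 2| ≤ 3 / 2
      rw [abs_of_nonneg (by positivity)]
      nlinarith
    have h5 : ‖∫ t in (0 : ℝ)..(2 * Real.pi),
          (nn 2 (ee t * f0 (β t)) - ee (-2 * t)
            - ((3 / 2 : ℂ) * ((starRingEnd ℂ) (β t) * ee (-2 * t))
              - (1 / 2 : ℂ) * (β t * ee (-2 * t))))‖ ≤
        ∫ t in (0 : ℝ)..(2 * Real.pi), 3 / 2 * ‖β t‖ ^ 2 := by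
      refine intervalIntegral.norm_integral_le_of_norm_le hpi ?_ i4
      refine Filter.Eventually.of_forall fun t _ => ?_
      have e6 : nn 2 (ee t * f0 (β t)) - ee (-2 * t)
            - ((3 / 2 : ℂ) * ((starRingEnd ℂ) (β t) * ee (-2 * t))
              - (1 / 2 : ℂ) * (β t * ee (-2 * t))) =
          ee (-2 * t) * (nn 2 (1 + β t) -
            (1 + 3 / 2 * (starRingEnd ℂ) (β t) - 1 / 2 * β t)) := by
        rw [nn2_rot]
        unfold f0
        ring
      rw [e6, norm_mul, norm_ee, one_mul]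
      exact pt (β t)
    rw [intervalIntegral.integral_const_mul] at h5
    unfold mB
    have hc : 0 ≤ 1 / (2 * Real.pi) := by positivity
    calc 1 / (2 * Real.pi) * ‖∫ t in (0 : ℝ)..(2 * Real.pi),
          (nn 2 (ee t * f0 (β t)) - ee (-2 * t)
            - ((3 / 2 : ℂ) * ((starRingEnd ℂ) (β t) * ee (-2 * t))
              - (1 / 2 : ℂ) * (β t * ee (-2 * t))))‖
        ≤ 1 / (2 * Real.pi) * (3 / 2 * ∫ t in (0 : ℝ)..(2 * Real.pi), ‖β t‖ ^ 2) :=
          mul_le_mul_of_nonneg_left h5 hc
      _ = 3 / 2 * (1 / (2 * Real.pi) * ∫ t in (0 : ℝ)..(2 * Real.pi), ‖β t‖ ^ 2) := by ring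
  · have j0 : IntervalIntegrable (fun t => nn 2 (ee t * f0 (β t))) volume 0 (2 * Real.pi) :=
      intg_of_bddC ((measurable_nn 2).comp (m0 hA)) (C := 6)
        (fun t => (norm_nn_le 2 _).trans (f0_le hA t)) _ _
    have j1 : IntervalIntegrable (fun t => nn 2 (ee t * f1 (β t) (P t))) volume 0
        (2 * Real.pi) :=
      intg_of_bddC ((measurable_nn 2).comp (m1 hA.mb hA.mp)) (C := 6)
        (fun t => (norm_nn_le 2 _).trans (f1_le (beta_le hA t) (P_le hA t) t)) _ _
    have j2 : IntervalIntegrable (fun t => nn 2 (ee t * f2 (β t) (P t))) volume 0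
        (2 * Real.pi) :=
      intg_of_bddC ((measurable_nn 2).comp (m2 hA.mb hA.mp)) (C := 6)
        (fun t => (norm_nn_le 2 _).trans (f2_le (beta_le hA t) (P_le hA t) t)) _ _
    unfold Helper49.RC.sg s0 sN
    rw [← mul_add, ← intervalIntegral.integral_add j0 (j1.add j2)]
    congr 1
    apply intervalIntegral.integral_congr
    intro t _
    show nn 2 (ee t * f0 (β t)) + nn 2 (ee t * f1 (β t) (P t)) + nn 2 (ee t * f2 (β t) (P t)) =
      nn 2 (ee t * f0 (β t)) + (nn 2 (ee t * f1 (β t) (P t)) + nn 2 (ee t * f2 (β t) (P t)))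
    ring

end Pool.Agent.Helper45.RC
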